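import Mathlib
import Pool.Agent.Results.MP_b01501_co.NotPiecewiseSyndetic

set_option autoImplicit false

/-!
There are infinitely many distinct extremal densities on a countable locally finite group.
-/

namespace Pool.Agent.Results.MP_5c8a88_co.InfinitelyManyDensities

section defs

variable {G : Type} [Group G]

/-- A finitely additive probability measure on all subsets of `G`. -/
structure IsMeasure (ν : Set G → ℝ) : Prop where
  nonneg : ∀ A, 0 ≤ ν A
  total : ν Set.univ = 1
  add : ∀ A B, Disjoint A B → ν (A ∪ B) = ν A + ν B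

/-- The group `G` is amenable: some measure is invariant under left translations. -/
def Amenable (G : Type) [Group G] : Prop :=
  ∃ ν : Set G → ℝ, IsMeasure ν ∧ ∀ (g : G) (A : Set G), ν ((fun x => g * x) '' A) = ν A

/-- The indicator function. -/
noncomputable def ind (A : Set G) (g : G) : ℝ := A.indicator (fun _ => 1) g

/-- The set function `A ↦ ∑ l(g) δ_g(A)`. -/
noncomputable def mass (l : G →₀ ℝ) (A : Set G) : ℝ := l.sum (fun g c => c * ind A g)

/-- Weights: nonnegative with sum `1`. -/
def Wt (l : G →₀ ℝ) : Prop := (∀ g, 0 ≤ l g) ∧ l.sum (fun _ c => c) = 1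

/-- Finitely supported measures. -/
def Pω (G : Type) [Group G] : Set (Set G → ℝ) := {ν | ∃ l : G →₀ ℝ, Wt l ∧ ν = mass l}

/-- Uniform measures on finite nonempty sets. -/
def Pu (G : Type) [Group G] : Set (Set G → ℝ) :=
  {ν | ∃ F : Finset G, F.Nonempty ∧ ν = fun A => ((A ∩ (F : Set G)).ncard : ℝ) / (F.card : ℝ)}

/-- The five letters. -/
inductive Letter
  | u | i | s | I | S

/-- The domain of the measure variable to which a letter is applied. -/
def Letter.dom (G : Type) [Group G] : Letter → Set (Set G → ℝ)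
  | .u => Pu G
  | .i => Pω G
  | .s => Pω G
  | .I => {ν | IsMeasure ν}
  | .S => {ν | IsMeasure ν}

/-- The infimum (letters `u`, `i`, `I`) or supremum (letters `s`, `S`) over a set of reals. -/
noncomputable def Letter.op : Letter → Set ℝ → ℝ
  | .u => sInf
  | .i => sInf
  | .s => sSup
  | .I => sInf
  | .S => sSup

/-- The convolution `(λ * ν)(A) = ∑_g λ({g}) ν(g⁻¹ A)`. -/
noncomputable def conv (lam ν : Set G → ℝ) (A : Set G) : ℝ :=
  ∑ᶠ g : G, lam {g} * ν {x | g * x ∈ A}

/-- The product of `n + 1` measures, `f 0 * (f 1 * (⋯ * f n))`. -/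
noncomputable def prod : (n : ℕ) → (Fin (n + 1) → Set G → ℝ) → Set G → ℝ
  | 0, f => f 0
  | n + 1, f => conv (f 0) (prod n (fun j => f j.succ))

/-- Applies the operators of the letters `e 0, …, e (n-1)` (`e 0` outermost) to a function of the
measure variables `ν 0, …, ν (n-1)`. -/
noncomputable def applyOps : (n : ℕ) → (Fin n → Letter) → ((Fin n → Set G → ℝ) → ℝ) → ℝ
  | 0, _, F => F Fin.elim0
  | n + 1, e, F => (e 0).op
      ((fun ν => applyOps n (fun j => e j.succ) (fun w => F (Fin.cons ν w))) '' (e 0).dom G)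

/-- The extremal density `e_s`. -/
noncomputable def extremal (n : ℕ) (s : Equiv.Perm (Fin (n + 1))) (e : Fin (n + 1) → Letter)
    (A : Set G) : ℝ :=
  applyOps (n + 1) e (fun ν => prod n (fun j => ν (s j)) A)

/-- The set of extremal densities. -/
def extremalDensities (G : Type) [Group G] : Set (Set G → ℝ) :=
  {f | ∃ (n : ℕ) (s : Equiv.Perm (Fin (n + 1))) (e : Fin (n + 1) → Letter),
    (∀ k, e k = .I ∨ e k = .S → k = s (Fin.last n)) ∧ f = extremal n s e}

end defs

section functional

variable {G : Type} [Group G]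

/-- The integral of `f` with respect to the weights `l`. -/
noncomputable def E (l : G →₀ ℝ) (f : G → ℝ) : ℝ := l.sum (fun g c => c * f g)

theorem mass_eq (l : G →₀ ℝ) (A : Set G) : mass l A = E l (ind A) := rfl

theorem E_single (g : G) (f : G → ℝ) : E (Finsupp.single g 1) f = f g := by
  simp [E]

theorem E_mono {l : G →₀ ℝ} (hl : Wt l) {f g : G → ℝ} (h : ∀ x, f x ≤ g x) : E l f ≤ E l g :=
  Finset.sum_le_sum fun x _ => mul_le_mul_of_nonneg_left (h x) (hl.1 x)

theorem E_const {l : G →₀ ℝ} (hl : Wt l) (c : ℝ) : E l (fun _ => c) = c := by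
  have h := hl.2
  rw [Finsupp.sum] at h
  rw [E, Finsupp.sum, ← Finset.sum_mul, h, one_mul]

theorem ind_shift (A : Set G) (g x : G) : ind {y | g * y ∈ A} x = ind A (g * x) := by
  classical
  rw [ind, ind, Set.indicator_apply, Set.indicator_apply]
  rfl

theorem ind_nonneg (A : Set G) (x : G) : 0 ≤ ind A x := by
  rw [ind]
  exact Set.indicator_nonneg (fun _ _ => zero_le_one) x

theorem ind_le_one (A : Set G) (x : G) : ind A x ≤ 1 :=
  Set.indicator_le_self' (fun _ _ => zero_le_one) x

theorem mass_singleton (l : G →₀ ℝ) (g : G) : mass l {g} = l g := by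
  classical
  rw [mass, Finsupp.sum]
  simp only [ind, Set.indicator_apply, Set.mem_singleton_iff, mul_ite, mul_one, mul_zero]
  rw [Finset.sum_ite_eq']
  split_ifs with h
  · rfl
  · exact (Finsupp.notMem_support_iff.1 h).symm

theorem conv_mass (l : G →₀ ℝ) (R : Set G → ℝ) (A : Set G) :
    conv (mass l) R A = E l (fun g => R {x | g * x ∈ A}) := by
  rw [conv, E, Finsupp.sum]
  simp only [mass_singleton]
  apply finsum_eq_sum_of_support_subset
  intro g hg
  rw [Function.mem_support] at hg
  rw [Finset.mem_coe, Finsupp.mem_support_iff]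
  intro h
  apply hg
  rw [h, zero_mul]

/-- The product of `n` measures with the point mass at `1` as empty product. -/
noncomputable def prodU : (n : ℕ) → (Fin n → Set G → ℝ) → Set G → ℝ
  | 0, _ => fun B => ind B 1
  | n + 1, f => conv (f 0) (prodU n (fun j => f j.succ))

theorem prod_eq_prodU (n : ℕ) (f : Fin (n + 1) → Set G → ℝ) (hf : f (Fin.last n) ∈ Pω G) :
    prod n f = prodU (n + 1) f := by
  induction n with
  | zero =>
    obtain ⟨l, -, hl⟩ := hf
    funext A
    have h0 : f 0 = mass l := hl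
    show f 0 A = conv (f 0) (fun B => ind B 1) A
    rw [h0, conv_mass, mass_eq]
    congr 1
    funext g
    rw [ind_shift, mul_one]
  | succ n ih =>
    show conv (f 0) (prod n fun j => f j.succ) = conv (f 0) (prodU (n + 1) fun j => f j.succ)
    rw [ih (fun j => f j.succ) (by simpa using hf)]

/-- The value of the game with `k` rounds starting from the functional `Λ`. -/
noncomputable def U (A : Set G) : ℕ → ((G → ℝ) → ℝ) → ℝ
  | 0, Λ => Λ (ind A)
  | k + 1, Λ => sInf ((fun κ : G →₀ ℝ => sSup ((fun η : G →₀ ℝ =>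
      U A k (fun f => Λ (fun g => E η (fun x => E κ (fun y => f (g * x * y)))))) ''
        {η | Wt η})) '' {κ | Wt κ})

/-- Alternating letters `i, s, i, s, …`. -/
def alt (n : ℕ) (j : Fin n) : Letter := if j.val % 2 = 0 then .i else .s

/-- The map exchanging `2a` and `2a + 1`. -/
def swapFn (M : ℕ) (j : Fin (2 * M)) : Fin (2 * M) :=
  if h : j.val % 2 = 0 then ⟨j.val + 1, by omega⟩ else ⟨j.val - 1, by omega⟩

theorem swapFn_invol (M : ℕ) : Function.Involutive (swapFn M) := by
  intro j
  apply Fin.ext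
  by_cases h : j.val % 2 = 0
  · have h1 : swapFn M j = ⟨j.val + 1, by omega⟩ := by rw [swapFn, dif_pos h]
    rw [h1, swapFn, dif_neg (by simp only; omega)]
    simp
  · have h1 : swapFn M j = ⟨j.val - 1, by omega⟩ := by rw [swapFn, dif_neg h]
    rw [h1, swapFn, dif_pos (by simp only; omega)]
    simp only
    omega

theorem image_Pω (F : (Set G → ℝ) → ℝ) : F '' Pω G = (fun l => F (mass l)) '' {l | Wt l} := by
  ext y
  constructor
  · rintro ⟨ν, ⟨l, hl, rfl⟩, rfl⟩
    exact ⟨l, hl, rfl⟩
  · rintro ⟨l, hl, rfl⟩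
    exact ⟨mass l, ⟨l, hl, rfl⟩, rfl⟩

theorem applyOps_eq_U (A : Set G) (M : ℕ) : ∀ Λ : (G → ℝ) → ℝ,
    applyOps (2 * M) (alt (2 * M))
      (fun ν => Λ (fun g => prodU (2 * M) (fun j => ν (swapFn M j)) {x | g * x ∈ A})) =
    U A M Λ := by
  induction M with
  | zero =>
    intro Λ
    show Λ (fun g => ind {x | g * x ∈ A} 1) = Λ (ind A)
    congr 1
    funext g
    rw [ind_shift, mul_one]
  | succ M ih =>
    intro Λ
    show sInf ((fun κ => sSup ((fun η => applyOps (2 * M) _ _) '' Pω G)) '' Pω G) = _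
    rw [image_Pω, U]
    congr 1
    apply Set.image_congr
    intro κ _
    show sSup _ = sSup _
    rw [image_Pω]
    congr 1
    apply Set.image_congr
    intro η _
    rw [← ih]
    have he : (fun j : Fin (2 * M) => alt (2 * (M + 1)) j.succ.succ) = alt (2 * M) := by
      funext j
      simp only [alt, Fin.val_succ]
      congr 1
      simp only [eq_iff_iff]
      omega
    have hF : ∀ w : Fin (2 * M) → Set G → ℝ,
        Λ (fun g => prodU (2 * (M + 1)) (fun j => (Fin.cons (mass κ) (Fin.cons (mass η) w) :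
          Fin (2 * (M + 1)) → Set G → ℝ) (swapFn (M + 1) j)) {x | g * x ∈ A}) =
        Λ (fun g => E η (fun x => E κ (fun y =>
          prodU (2 * M) (fun j => w (swapFn M j)) {z | g * x * y * z ∈ A}))) := by
      intro w
      congr 1
      funext g
      have h0 : swapFn (M + 1) (0 : Fin (2 * M + 2)) = (1 : Fin (2 * M + 2)) := by
        apply Fin.ext
        rw [swapFn, dif_pos (by simp)]
        rfl
      have h1 : swapFn (M + 1) (1 : Fin (2 * M + 2)) = (0 : Fin (2 * M + 2)) := by
        apply Fin.ext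
        rw [swapFn, dif_neg (show ¬ (1 : Fin (2 * M + 2)).val % 2 = 0 from by
          show ¬ 1 % 2 = 0
          norm_num)]
        rfl
      have h2 : ∀ j : Fin (2 * M), swapFn (M + 1) (j.succ.succ : Fin (2 * M + 2)) =
          (swapFn M j).succ.succ := by
        intro j
        apply Fin.ext
        by_cases h : j.val % 2 = 0
        · rw [swapFn, dif_pos (by simp only [Fin.val_succ]; omega), swapFn, dif_pos h]
          simp
        · rw [swapFn, dif_neg (by simp only [Fin.val_succ]; omega), swapFn, dif_neg h]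
          simp only [Fin.val_succ]
          omega
      show conv ((Fin.cons (mass κ) (Fin.cons (mass η) w) : Fin (2 * M + 2) → Set G → ℝ)
          (swapFn (M + 1) (0 : Fin (2 * M + 2))))
        (conv ((Fin.cons (mass κ) (Fin.cons (mass η) w) : Fin (2 * M + 2) → Set G → ℝ)
          (swapFn (M + 1) (1 : Fin (2 * M + 2))))
          (prodU (2 * M) (fun j => (Fin.cons (mass κ) (Fin.cons (mass η) w) :
            Fin (2 * M + 2) → Set G → ℝ) (swapFn (M + 1) (j.succ.succ : Fin (2 * M + 2))))))
          {x | g * x ∈ A} = _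
      rw [h0, h1]
      simp only [h2]
      rw [show ((Fin.cons (mass κ) (Fin.cons (mass η) w) : Fin (2 * M + 2) → Set G → ℝ) 1) =
        mass η from rfl, show ((Fin.cons (mass κ) (Fin.cons (mass η) w) :
          Fin (2 * M + 2) → Set G → ℝ) 0) = mass κ from rfl, conv_mass]
      congr 1
      funext x
      rw [conv_mass]
      congr 1
      funext y
      simp only [Fin.cons_succ, Set.mem_ofPred_eq, mul_assoc]
    have hF2 : (fun w : Fin (2 * M) → Set G → ℝ =>
        Λ (fun g => prodU (2 * (M + 1)) (fun j => (Fin.cons (mass κ) (Fin.cons (mass η) w) :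
          Fin (2 * (M + 1)) → Set G → ℝ) (swapFn (M + 1) j)) {x | g * x ∈ A})) = fun w =>
        Λ (fun g => E η (fun x => E κ (fun y =>
          prodU (2 * M) (fun j => w (swapFn M j)) {z | g * x * y * z ∈ A}))) := funext hF
    show applyOps (2 * M) (fun j : Fin (2 * M) => alt (2 * (M + 1)) j.succ.succ)
      (fun w : Fin (2 * M) → Set G → ℝ =>
        Λ (fun g => prodU (2 * (M + 1)) (fun j => (Fin.cons (mass κ) (Fin.cons (mass η) w) :
          Fin (2 * (M + 1)) → Set G → ℝ) (swapFn (M + 1) j)) {x | g * x ∈ A})) = _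
    rw [he, hF2]

/-- The functional after one round. -/
noncomputable def nxt (Λ : (G → ℝ) → ℝ) (η κ : G →₀ ℝ) : (G → ℝ) → ℝ :=
  fun f => Λ (fun g => E η (fun x => E κ (fun y => f (g * x * y))))

/-- Monotone functionals preserving constants. -/
structure Nice (Λ : (G → ℝ) → ℝ) : Prop where
  mono : ∀ f g : G → ℝ, (∀ x, f x ≤ g x) → Λ f ≤ Λ g
  const : ∀ c : ℝ, Λ (fun _ => c) = c

theorem Nice.nxt {Λ : (G → ℝ) → ℝ} (h : Nice Λ) {η κ : G →₀ ℝ} (hη : Wt η) (hκ : Wt κ) :
    Nice (nxt Λ η κ) where
  mono := by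
    intro f g hfg
    exact h.mono _ _ fun x => E_mono hη fun y => E_mono hκ fun z => hfg _
  const := by
    intro c
    show Λ (fun g => E η (fun x => E κ (fun y => c))) = c
    simp only [E_const hκ, E_const hη, h.const]

theorem wt_single (g : G) : Wt (Finsupp.single g 1) := by
  classical
  refine ⟨fun x => ?_, by simp⟩
  rw [Finsupp.single_apply]
  split_ifs <;> norm_num

theorem wt_nonempty : ({l | Wt l} : Set (G →₀ ℝ)).Nonempty := ⟨_, wt_single 1⟩

theorem U_mem (A : Set G) (k : ℕ) : ∀ Λ : (G → ℝ) → ℝ, Nice Λ → 0 ≤ U A k Λ ∧ U A k Λ ≤ 1 := by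
  induction k with
  | zero =>
    intro Λ h
    refine ⟨?_, ?_⟩
    · have := h.mono (fun _ => 0) (ind A) (ind_nonneg A)
      rwa [h.const] at this
    · have := h.mono (ind A) (fun _ => 1) (ind_le_one A)
      rwa [h.const] at this
  | succ k ih =>
    intro Λ h
    have h1 : ∀ κ : G →₀ ℝ, Wt κ → 0 ≤ sSup ((fun η : G →₀ ℝ => U A k (nxt Λ η κ)) '' {η | Wt η}) ∧
        sSup ((fun η : G →₀ ℝ => U A k (nxt Λ η κ)) '' {η | Wt η}) ≤ 1 := by
      intro κ hκ
      refine ⟨?_, ?_⟩
      · apply Real.sSup_nonneg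
        rintro y ⟨η, hη, rfl⟩
        exact (ih _ (h.nxt hη hκ)).1
      · apply Real.sSup_le _ zero_le_one
        rintro y ⟨η, hη, rfl⟩
        exact (ih _ (h.nxt hη hκ)).2
    show 0 ≤ sInf ((fun κ : G →₀ ℝ => sSup ((fun η : G →₀ ℝ => U A k (nxt Λ η κ)) ''
      {η | Wt η})) '' {κ | Wt κ}) ∧ _ ≤ _
    refine ⟨?_, ?_⟩
    · apply Real.sInf_nonneg
      rintro y ⟨κ, hκ, rfl⟩
      exact (h1 κ hκ).1
    · refine csInf_le_of_le ⟨0, ?_⟩ ⟨_, wt_single 1, rfl⟩ (h1 _ (wt_single 1)).2
      rintro y ⟨κ, hκ, rfl⟩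
      exact (h1 κ hκ).1

theorem U_succ_le {A : Set G} {k : ℕ} {Λ : (G → ℝ) → ℝ} (h : Nice Λ) {κ : G →₀ ℝ} (hκ : Wt κ)
    {b : ℝ} (hb : ∀ η : G →₀ ℝ, Wt η → U A k (nxt Λ η κ) ≤ b) : U A (k + 1) Λ ≤ b := by
  refine csInf_le_of_le ⟨0, ?_⟩ ⟨κ, hκ, rfl⟩ ?_
  · rintro y ⟨κ, hκ, rfl⟩
    apply Real.sSup_nonneg
    rintro y ⟨η, hη, rfl⟩
    exact (U_mem A k _ (h.nxt hη hκ)).1
  · apply csSup_le (wt_nonempty.image _)
    rintro y ⟨η, hη, rfl⟩
    exact hb η hη

theorem le_U_succ {A : Set G} {k : ℕ} {Λ : (G → ℝ) → ℝ} (h : Nice Λ) {b : ℝ}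
    (hb : ∀ κ : G →₀ ℝ, Wt κ → ∃ η : G →₀ ℝ, Wt η ∧ b ≤ U A k (nxt Λ η κ)) :
    b ≤ U A (k + 1) Λ := by
  apply le_csInf (wt_nonempty.image _)
  rintro y ⟨κ, hκ, rfl⟩
  obtain ⟨η, hη, hle⟩ := hb κ hκ
  refine le_csSup_of_le ⟨1, ?_⟩ ⟨η, hη, rfl⟩ hle
  rintro y ⟨η, hη, rfl⟩
  exact (U_mem A k _ (h.nxt hη hκ)).2

/-- The two-point measure at `1` and `z`. -/
noncomputable def two (z : G) : G →₀ ℝ := Finsupp.single 1 (1 / 2) + Finsupp.single z (1 / 2)

theorem E_two (z : G) (f : G → ℝ) : E (two z) f = (f 1 + f z) / 2 := by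
  rw [E, two, Finsupp.sum_add_index' (by simp) (by intros; ring), Finsupp.sum_single_index (by simp),
    Finsupp.sum_single_index (by simp)]
  ring

theorem wt_two (z : G) : Wt (two z) := by
  classical
  refine ⟨fun x => ?_, ?_⟩
  · rw [two, Finsupp.add_apply, Finsupp.single_apply, Finsupp.single_apply]
    split_ifs <;> norm_num
  · rw [two, Finsupp.sum_add_index' (by simp) (by intros; ring),
      Finsupp.sum_single_index (by simp), Finsupp.sum_single_index (by simp)]
    norm_num

theorem E_eq_sum (l : G →₀ ℝ) (f : G → ℝ) : E l f = ∑ x : l.support, l x * f x := by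
  rw [E, Finsupp.sum, ← Finset.sum_coe_sort]

theorem wt_sum {l : G →₀ ℝ} (hl : Wt l) : ∑ x : l.support, l x = 1 := by
  have h := hl.2
  rwa [Finsupp.sum, ← Finset.sum_coe_sort] at h

end functional

section lamp

open Pool.Agent.Results.MP_b01501_co
open Pool.Agent.Results.MP_b01501_co.NotPiecewiseSyndetic (Lamp T Pos sh sh_apply mul_v mul_t
  one_v one_t mem_K exists_n K_inv K_nonempty)

/-- The level of an element of `T`: `0` for `0`, and otherwise one more than the largest index in
the support. -/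
noncomputable def lev (t : T) : ℕ := t.support.sup (fun i => i + 1)

theorem lev_le_iff {t : T} {l : ℕ} : lev t ≤ l ↔ ∀ i, l ≤ i → t i = 0 := by
  rw [lev, Finset.sup_le_iff]
  constructor
  · intro h i hi
    by_contra h0
    have := h i (Finsupp.mem_support_iff.2 h0)
    omega
  · intro h i hi
    by_contra h0
    exact (Finsupp.mem_support_iff.1 hi) (h i (by omega))

theorem lt_lev {t : T} {i : ℕ} (h : t i ≠ 0) : i < lev t := by
  by_contra h0
  exact h (lev_le_iff.1 (not_lt.1 h0) i le_rfl)

theorem lev_eq {t : T} {N : ℕ} (h1 : t N ≠ 0) (h2 : ∀ i, N < i → t i = 0) : lev t = N + 1 :=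
  le_antisymm (lev_le_iff.2 fun i hi => h2 i (by omega)) (lt_lev h1)

/-- The levels at which some lamp `(x, 0, 0)` is lit. -/
def lv (g : Lamp) : Set ℕ := {l | ∃ x : T, lev x = l ∧ g.v (x, 0, 0) ≠ 0}

theorem lv_finite (g : Lamp) : (lv g).Finite := by
  apply Set.Finite.subset (Finset.finite_toSet (g.v.support.image (fun p => lev p.1)))
  rintro l ⟨x, rfl, hx⟩
  rw [Finset.mem_coe, Finset.mem_image]
  exact ⟨(x, 0, 0), Finsupp.mem_support_iff.2 hx, rfl⟩

/-- The test sets. -/
def TA (k : ℕ) : Set Lamp := {g | (lv g ∩ {l | l < lev g.t}).ncard ≤ k}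

/-- The auxiliary sets. -/
def TD (j : ℕ) : Set Lamp := {g | (∀ l ∈ lv g, l ≤ lev g.t) ∧ (lv g).ncard ≤ j}

/-- The unit translation. -/
noncomputable def ez (N : ℕ) : Lamp := ⟨0, Finsupp.single N 1⟩

/-- One good move. -/
theorem move {g y : Lamp} {n N : ℕ} (hy : y ∈ NotPiecewiseSyndetic.K n 0) (hn : n ≤ N)
    (hg1 : lev g.t ≤ N) (hg2 : ∀ l ∈ lv g, l ≤ N) :
    lev (g * ez N * y).t = N + 1 ∧ lv (g * ez N * y) ⊆ insert (N + 1) (lv g) := by
  rw [mem_K, sub_zero] at hy
  have hyt := NotPiecewiseSyndetic.mem_E'.1 hy.2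
  have hgt := lev_le_iff.1 hg1
  have ht : ∀ i, (g * ez N * y).t i = g.t i + (Finsupp.single N (1 : ZMod 2)) i + y.t i := by
    intro i; rfl
  refine ⟨?_, ?_⟩
  · apply lev_eq
    · rw [ht, hgt N le_rfl, hyt N hn, Finsupp.single_eq_same]
      decide
    · intro i hi
      rw [ht, hgt i hi.le, hyt i (hn.trans hi.le), Finsupp.single_eq_of_ne (by omega)]
      decide
  · rintro l ⟨x, rfl, hx⟩
    by_cases hgx : g.v (x, 0, 0) = 0
    · left
      have h1 : (g * ez N * y).v (x, 0, 0) = y.v (x - (g.t + Finsupp.single N 1), 0, 0) := by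
        rw [mul_v, mul_v, Finsupp.add_apply, Finsupp.add_apply, sh_apply, sh_apply, hgx]
        show 0 + (0 : Pos →₀ ZMod 2) _ + _ = _
        rw [Finsupp.zero_apply, add_zero, zero_add]
        rfl
      rw [h1] at hx
      have h2 : (x - (g.t + Finsupp.single N 1), 0, 0) ∈ NotPiecewiseSyndetic.Z n := by
        by_contra h0
        exact hx (NotPiecewiseSyndetic.mem_V.1 hy.1 _ h0)
      rw [NotPiecewiseSyndetic.Z, Finset.mem_product] at h2
      have h3 := NotPiecewiseSyndetic.mem_E'.1 h2.1
      have h4 : ∀ i, x i = (x - (g.t + Finsupp.single N 1) : T) i + g.t i +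
          (Finsupp.single N (1 : ZMod 2)) i := by
        intro i
        rw [Finsupp.sub_apply, Finsupp.add_apply]
        ring
      show lev x = N + 1
      apply lev_eq
      · rw [h4, h3 N hn, hgt N le_rfl, Finsupp.single_eq_same]
        decide
      · intro i hi
        rw [h4, h3 i (hn.trans hi.le), hgt i hi.le, Finsupp.single_eq_of_ne (by omega)]
        decide
    · right
      exact ⟨x, rfl, hgx⟩

/-- Finite families of elements satisfying `P`. -/
def Fam (P : Lamp → Prop) (Λ : (Lamp → ℝ) → ℝ) : Prop :=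
  ∃ (ι : Type) (_ : Fintype ι) (c : ι → ℝ) (g : ι → Lamp), (∀ i, 0 ≤ c i) ∧ ∑ i, c i = 1 ∧
    (∀ i, P (g i)) ∧ ∀ f, Λ f = ∑ i, c i * f (g i)

theorem Fam.nice {P : Lamp → Prop} {Λ : (Lamp → ℝ) → ℝ} (h : Fam P Λ) : Nice Λ := by
  obtain ⟨ι, _, c, g, hc, hs, -, hΛ⟩ := h
  refine ⟨fun f f' hff => ?_, fun a => ?_⟩
  · rw [hΛ, hΛ]
    exact Finset.sum_le_sum fun i _ => mul_le_mul_of_nonneg_left (hff _) (hc i)
  · rw [hΛ, ← Finset.sum_mul, hs, one_mul]

theorem lower (r : ℕ) : ∀ (j : ℕ) (Λ : (Lamp → ℝ) → ℝ), Fam (fun g => g ∈ TD j) Λ →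
    1 ≤ U (TA (j + r)) (r + 1) Λ := by
  induction r with
  | zero =>
    intro j Λ h
    apply le_U_succ h.nice
    intro κ hκ
    obtain ⟨ι, _, c, g, hc, hs, hg, hΛ⟩ := h
    obtain ⟨n, hn⟩ := exists_n κ.support
    let N := max n (Finset.univ.sup fun i => lev (g i).t)
    refine ⟨Finsupp.single (ez N) 1, wt_single _, ?_⟩
    show 1 ≤ nxt Λ _ κ (ind _)
    rw [nxt, hΛ]
    simp only [E_single]
    have h1 : ∀ i, E κ (fun y => ind (TA (j + 0)) (g i * ez N * y)) = 1 := by
      intro i
      rw [E_eq_sum]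
      have h2 : ∀ y : κ.support, ind (TA (j + 0)) (g i * ez N * y) = 1 := by
        intro y
        have hl1 : lev (g i).t ≤ N := (Finset.le_sup (f := fun i => lev (g i).t)
          (Finset.mem_univ i)).trans (le_max_right _ _)
        obtain ⟨m1, m2⟩ := move (hn y.1 y.2) (le_max_left n _) hl1
          (fun l hl => ((hg i).1 l hl).trans hl1)
        rw [ind, Set.indicator_of_mem]
        show (lv (g i * ez N * y) ∩ {l | l < lev (g i * ez N * y).t}).ncard ≤ j + 0
        refine (Set.ncard_le_ncard ?_ (lv_finite (g i))).trans (hg i).2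
        rintro l ⟨hl, hlt⟩
        rw [Set.mem_ofPred_eq, m1] at hlt
        rcases m2 hl with h | h
        · omega
        · exact h
      simp only [h2, mul_one]
      exact wt_sum hκ
    simp only [h1, mul_one, hs]
    exact le_rfl
  | succ r ih =>
    intro j Λ h
    apply le_U_succ h.nice
    intro κ hκ
    obtain ⟨ι, _, c, g, hc, hs, hg, hΛ⟩ := h
    obtain ⟨n, hn⟩ := exists_n κ.support
    let N := max n (Finset.univ.sup fun i => lev (g i).t)
    refine ⟨Finsupp.single (ez N) 1, wt_single _, ?_⟩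
    have e : j + (r + 1) = (j + 1) + r := by ring
    rw [e]
    apply ih
    refine ⟨ι × κ.support, inferInstance, fun p => c p.1 * κ p.2, fun p => g p.1 * ez N * p.2,
      fun p => mul_nonneg (hc _) (hκ.1 _), ?_, ?_, ?_⟩
    · rw [Fintype.sum_prod_type]
      simp only [← Finset.mul_sum, wt_sum hκ, mul_one, hs]
    · rintro ⟨i, y⟩
      have hl1 : lev (g i).t ≤ N := (Finset.le_sup (f := fun i => lev (g i).t)
        (Finset.mem_univ i)).trans (le_max_right _ _)
      obtain ⟨m1, m2⟩ := move (hn y.1 y.2) (le_max_left n _) hl1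
        (fun l hl => ((hg i).1 l hl).trans hl1)
      refine ⟨?_, ?_⟩
      · intro l hl
        show l ≤ lev (g i * ez N * y).t
        rw [m1]
        rcases m2 hl with h | h
        · exact h.le
        · exact (((hg i).1 l h).trans hl1).trans (Nat.le_succ _)
      · refine (Set.ncard_le_ncard m2 ((lv_finite (g i)).insert _)).trans ?_
        exact (Set.ncard_insert_le _ _).trans (Nat.succ_le_succ (hg i).2)
    · intro f
      rw [nxt, hΛ, Fintype.sum_prod_type]
      simp only [E_single]
      simp only [E_eq_sum, Finset.mul_sum, mul_assoc]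

/-- Toggling the lamp `(q, 0, 0)`. -/
noncomputable def tog (q : T) : Lamp := ⟨Finsupp.single (q, 0, 0) 1, 0⟩

theorem tog_mul_v (q : T) (g : Lamp) (p : Pos) :
    (tog q * g).v p = (Finsupp.single (q, 0, 0) (1 : ZMod 2) : Pos →₀ ZMod 2) p + g.v p := by
  obtain ⟨x, p⟩ := p
  rw [mul_v, Finsupp.add_apply, sh_apply]
  show _ + g.v (x - 0, p) = _
  rw [sub_zero]
  rfl

theorem tog_mul_t (q : T) (g : Lamp) : (tog q * g).t = g.t := by
  rw [mul_t]
  exact zero_add _

theorem tog_comm (p q : T) (g : Lamp) : tog p * (tog q * g) = tog q * (tog p * g) := by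
  apply NotPiecewiseSyndetic.Lamp.ext
  · ext1 x
    rw [tog_mul_v, tog_mul_v, tog_mul_v, tog_mul_v]
    ring
  · rw [tog_mul_t, tog_mul_t, tog_mul_t, tog_mul_t]

theorem mul_tog (g : Lamp) : g * tog 0 = tog g.t * g := by
  apply NotPiecewiseSyndetic.Lamp.ext
  · ext1 x
    rw [tog_mul_v, mul_v, Finsupp.add_apply, add_comm]
    congr 1
    obtain ⟨x, p⟩ := x
    rw [sh_apply]
    show (Finsupp.single ((0 : T), 0, 0) (1 : ZMod 2) : Pos →₀ ZMod 2) (x - g.t, p) = _
    rw [Finsupp.single_apply, Finsupp.single_apply]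
    have hiff : (((0 : T), (0 : ℕ), (0 : ℕ)) = (x - g.t, p)) ↔
        ((g.t, (0 : ℕ), (0 : ℕ)) = (x, p)) := by
      constructor
      · intro h
        obtain ⟨h1, h2⟩ := Prod.mk.inj h
        exact Prod.ext (sub_eq_zero.1 h1.symm).symm h2
      · intro h
        obtain ⟨h1, h2⟩ := Prod.mk.inj h
        exact Prod.ext (by show 0 = x - g.t; rw [h1, sub_self]) h2
    simp only [hiff]
  · rw [tog_mul_t, mul_t]
    exact add_zero _

/-- The uniform measure on the cube obtained from `g` by toggling some of the lamps in `Q`. -/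
noncomputable def cubeF : List T → Lamp → (Lamp → ℝ) → ℝ
  | [], g, f => f g
  | q :: Q, g, f => (cubeF Q g f + cubeF Q g (fun u => f (tog q * u))) / 2

theorem cubeF_mono (Q : List T) (g : Lamp) : ∀ f f' : Lamp → ℝ, (∀ x, f x ≤ f' x) →
    cubeF Q g f ≤ cubeF Q g f' := by
  induction Q with
  | nil => intro f f' h; exact h g
  | cons q Q ih =>
    intro f f' h
    have h1 := ih f f' h
    have h2 := ih (fun u => f (tog q * u)) (fun u => f' (tog q * u)) (fun u => h _)
    show (_ + _) / 2 ≤ (_ + _) / 2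
    linarith

theorem cubeF_const (Q : List T) (g : Lamp) (c : ℝ) : cubeF Q g (fun _ => c) = c := by
  induction Q with
  | nil => rfl
  | cons q Q ih =>
    show (cubeF Q g (fun _ => c) + cubeF Q g (fun _ => c)) / 2 = c
    rw [ih]; ring

theorem cubeF_add (Q : List T) (g : Lamp) : ∀ f f' : Lamp → ℝ,
    cubeF Q g (fun u => f u + f' u) = cubeF Q g f + cubeF Q g f' := by
  induction Q with
  | nil => intro f f'; rfl
  | cons q Q ih =>
    intro f f'
    show (cubeF Q g (fun u => f u + f' u) + cubeF Q g (fun u => f (tog q * u) + f' (tog q * u))) / 2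
      = (_ + _) / 2 + (_ + _) / 2
    rw [ih, ih (fun u => f (tog q * u)) (fun u => f' (tog q * u))]
    ring

theorem cubeF_half (Q : List T) (g : Lamp) : ∀ f f' : Lamp → ℝ,
    cubeF Q g (fun u => (f u + f' u) / 2) = (cubeF Q g f + cubeF Q g f') / 2 := by
  induction Q with
  | nil => intro f f'; rfl
  | cons q Q ih =>
    intro f f'
    show (cubeF Q g (fun u => (f u + f' u) / 2) +
      cubeF Q g (fun u => (f (tog q * u) + f' (tog q * u)) / 2)) / 2
      = ((_ + _) / 2 + (_ + _) / 2) / 2
    rw [ih, ih (fun u => f (tog q * u)) (fun u => f' (tog q * u))]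
    ring

theorem cubeF_sum {κ : Type} [Fintype κ] (Q : List T) (g : Lamp) (a : κ → ℝ) :
    ∀ F : κ → Lamp → ℝ,
    cubeF Q g (fun u => ∑ j, a j * F j u) = ∑ j, a j * cubeF Q g (F j) := by
  induction Q with
  | nil => intro F; rfl
  | cons q Q ih =>
    intro F
    show (cubeF Q g (fun u => ∑ j, a j * F j u) +
      cubeF Q g (fun u => ∑ j, a j * F j (tog q * u))) / 2 = ∑ j, a j * ((_ + _) / 2)
    rw [ih, ih (fun j u => F j (tog q * u)), ← Finset.sum_add_distrib, Finset.sum_div]
    refine Finset.sum_congr rfl fun j _ => ?_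
    ring

theorem cubeF_E (Q : List T) (g : Lamp) (η : Lamp →₀ ℝ) (H : Lamp → Lamp → ℝ) :
    cubeF Q g (fun u => E η (fun x => H u x)) = E η (fun x => cubeF Q g (fun u => H u x)) := by
  rw [E_eq_sum, ← cubeF_sum Q g (fun x : η.support => η x) (fun x u => H u x)]
  congr 1
  funext u
  rw [E_eq_sum]

theorem cubeF_right (Q : List T) (g y : Lamp) : ∀ f : Lamp → ℝ,
    cubeF Q g (fun u => f (u * y)) = cubeF Q (g * y) f := by
  induction Q with
  | nil => intro f; rfl
  | cons q Q ih =>
    intro f
    show (cubeF Q g (fun u => f (u * y)) + cubeF Q g (fun u => f (tog q * u * y))) / 2 =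
      (_ + _) / 2
    rw [ih, ← ih (fun u => f (tog q * u))]
    simp only [mul_assoc]

theorem cubeF_tog (q : T) (Q : List T) (g : Lamp) : ∀ f : Lamp → ℝ,
    cubeF Q (tog q * g) f = cubeF Q g (fun u => f (tog q * u)) := by
  induction Q with
  | nil => intro f; rfl
  | cons q' Q ih =>
    intro f
    show (cubeF Q (tog q * g) f + cubeF Q (tog q * g) (fun u => f (tog q' * u))) / 2 =
      (cubeF Q g (fun u => f (tog q * u)) + cubeF Q g (fun u => f (tog q * (tog q' * u)))) / 2
    rw [ih, ih (fun u => f (tog q' * u))]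
    simp only [tog_comm q' q]

theorem cubeF_two (Q : List T) (g : Lamp) (f : Lamp → ℝ) :
    (cubeF Q g f + cubeF Q (g * tog 0) f) / 2 = cubeF (g.t :: Q) g f := by
  rw [mul_tog, cubeF_tog]
  rfl

theorem cube_lower (Q : List T) (g : Lamp) : Q.Nodup → ∀ S : Set Lamp,
    (∀ g' : Lamp, g'.t = g.t → (∀ q ∈ Q, g'.v (q, 0, 0) = 1) → g' ∈ S) →
    (1 / 2 : ℝ) ^ Q.length ≤ cubeF Q g (ind S) := by
  induction Q with
  | nil =>
    intro _ S h
    have h1 : g ∈ S := h g rfl (by simp)
    show (1 / 2 : ℝ) ^ 0 ≤ ind S g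
    rw [ind, Set.indicator_of_mem h1, pow_zero]
  | cons q Q ih =>
    intro hnd S h
    rw [List.nodup_cons] at hnd
    have h1 := ih hnd.2 (S ∪ {u | tog q * u ∈ S}) (by
      intro g' hg' hv
      by_cases hq : g'.v (q, 0, 0) = 1
      · left
        apply h g' hg'
        intro x hx
        rcases List.mem_cons.1 hx with rfl | hx
        · exact hq
        · exact hv x hx
      · right
        show tog q * g' ∈ S
        apply h _ (by rw [tog_mul_t]; exact hg')
        intro x hx
        rw [tog_mul_v]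
        by_cases hxq : x = q
        · subst hxq
          rw [Finsupp.single_eq_same]
          have h3 : ∀ a : ZMod 2, a ≠ 1 → 1 + a = 1 := by decide
          exact h3 _ hq
        · rw [Finsupp.single_eq_of_ne (by
            intro h4
            exact hxq (Prod.mk.inj h4).1), zero_add]
          exact hv x ((List.mem_cons.1 hx).resolve_left hxq))
    have h2 : cubeF Q g (ind (S ∪ {u | tog q * u ∈ S})) ≤
        cubeF Q g (ind S) + cubeF Q g (fun u => ind S (tog q * u)) := by
      rw [← cubeF_add]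
      apply cubeF_mono
      intro u
      classical
      have h5 := ind_nonneg S u
      have h6 := ind_nonneg S (tog q * u)
      by_cases hu : u ∈ S ∪ {u | tog q * u ∈ S}
      · rw [ind, Set.indicator_of_mem hu]
        rcases hu with hu | hu
        · have : ind S u = 1 := by rw [ind, Set.indicator_of_mem hu]
          linarith
        · have : ind S (tog q * u) = 1 := by
            rw [ind, Set.indicator_of_mem (show tog q * u ∈ S from hu)]
          linarith
      · rw [ind, Set.indicator_of_notMem hu]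
        linarith
    show (1 / 2 : ℝ) ^ (Q.length + 1) ≤ (_ + _) / 2
    rw [pow_succ]
    linarith

theorem cube_upper {k : ℕ} {Q : List T} {g : Lamp} (hQ : (Q.map lev).Nodup)
    (hlen : Q.length = k + 1) (hlev : ∀ q ∈ Q, lev q < lev g.t) :
    cubeF Q g (ind (TA k)) ≤ 1 - (1 / 2 : ℝ) ^ (k + 1) := by
  have hnd : Q.Nodup := List.Nodup.of_map _ hQ
  have h1 := cube_lower Q g hnd (TA k)ᶜ (by
    intro g' hg' hv hmem
    have h2 : ((Q.map lev).toFinset : Set ℕ) ⊆ lv g' ∩ {l | l < lev g'.t} := by
      intro l hl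
      rw [Finset.mem_coe, List.mem_toFinset, List.mem_map] at hl
      obtain ⟨q, hq, rfl⟩ := hl
      refine ⟨⟨q, rfl, ?_⟩, ?_⟩
      · rw [hv q hq]; decide
      · show lev q < lev g'.t
        rw [hg']; exact hlev q hq
    have h3 := Set.ncard_le_ncard h2 ((lv_finite g').inter_of_left _)
    rw [Set.ncard_coe_finset, List.toFinset_card_of_nodup hQ, List.length_map, hlen] at h3
    have h4 : (lv g' ∩ {l | l < lev g'.t}).ncard ≤ k := hmem
    omega)
  have h5 : cubeF Q g (ind (TA k)) + cubeF Q g (ind (TA k)ᶜ) = 1 := by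
    rw [← cubeF_add, ← cubeF_const Q g 1]
    congr 1
    funext u
    by_cases hu : u ∈ TA k
    · rw [ind, ind, Set.indicator_of_mem hu,
        Set.indicator_of_notMem (show u ∉ (TA k)ᶜ from fun h => absurd hu h)]
      norm_num
    · rw [ind, ind, Set.indicator_of_notMem hu, Set.indicator_of_mem (show u ∈ (TA k)ᶜ from hu)]
      norm_num
  rw [hlen] at h1
  linarith

/-- Goodness of a list of positions: distinct levels. -/
noncomputable def gd (Q : List T) : ℝ := if (Q.map lev).Nodup then 1 else 0

theorem gd_le_one (Q : List T) : gd Q ≤ 1 := by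
  rw [gd]; split_ifs <;> norm_num

theorem gd_nonneg (Q : List T) : 0 ≤ gd Q := by
  rw [gd]; split_ifs <;> norm_num

/-- Families of cubes. -/
def CFam (k r : ℕ) (δ : ℝ) (Λ : (Lamp → ℝ) → ℝ) : Prop :=
  ∃ (ι : Type) (_ : Fintype ι) (c : ι → ℝ) (Q : ι → List T) (g : ι → Lamp),
    (∀ i, 0 ≤ c i) ∧ ∑ i, c i = 1 ∧ (∀ i, (Q i).length + r = k + 1) ∧
    δ ≤ ∑ i, c i * gd (Q i) ∧ ∀ f, Λ f = ∑ i, c i * cubeF (Q i) (g i) f

theorem CFam.nice {k r : ℕ} {δ : ℝ} {Λ : (Lamp → ℝ) → ℝ} (h : CFam k r δ Λ) : Nice Λ := by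
  obtain ⟨ι, _, c, Q, g, hc, hs, -, -, hΛ⟩ := h
  refine ⟨fun f f' hff => ?_, fun a => ?_⟩
  · rw [hΛ, hΛ]
    exact Finset.sum_le_sum fun i _ => mul_le_mul_of_nonneg_left (cubeF_mono _ _ _ _ hff) (hc i)
  · rw [hΛ]
    simp only [cubeF_const]
    rw [← Finset.sum_mul, hs, one_mul]

theorem exists_bound {ι : Type} [Fintype ι] (Q : ι → List T) :
    ∃ L : ℕ, ∀ i, ∀ q ∈ Q i, lev q ≤ L := by
  refine ⟨Finset.univ.sup fun i => (Q i).toFinset.sup lev, fun i q hq => ?_⟩
  exact (Finset.le_sup (f := lev) (List.mem_toFinset.2 hq)).trans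
    (Finset.le_sup (f := fun i => (Q i).toFinset.sup lev) (Finset.mem_univ i))

theorem lev_alt (P : T) (L : ℕ) : L < lev P ∨ L < lev (P + Finsupp.single L 1) := by
  by_cases h : P L = 0
  · right
    apply lt_lev
    rw [Finsupp.add_apply, h, Finsupp.single_eq_same]
    decide
  · exact Or.inl (lt_lev h)

theorem upper (k r : ℕ) : ∀ (Λ : (Lamp → ℝ) → ℝ) (δ : ℝ), CFam k r δ Λ →
    U (TA k) (2 * r + 1) Λ ≤ 1 - δ * (1 / 2) ^ (r + 1) * (1 / 2) ^ (k + 1) := by
  induction r with
  | zero =>
    intro Λ δ h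
    have hnice := h.nice
    obtain ⟨ι, _, c, Q, g, hc, hs, hlen, hδ, hΛ⟩ := h
    obtain ⟨L, hL⟩ := exists_bound Q
    apply U_succ_le hnice (wt_two (ez L))
    intro η hη
    show nxt Λ η (two (ez L)) (ind (TA k)) ≤ _
    have hpos : (0 : ℝ) < (1 / 2) ^ (k + 1) := by positivity
    rw [nxt, hΛ]
    have h1 : ∀ i, cubeF (Q i) (g i) (fun u => E η (fun x => E (two (ez L))
        (fun y => ind (TA k) (u * x * y)))) ≤ 1 - gd (Q i) * ((1 / 2) * (1 / 2) ^ (k + 1)) := by
      intro i
      rw [cubeF_E]
      have h2 : ∀ x, cubeF (Q i) (g i) (fun u => E (two (ez L))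
          (fun y => ind (TA k) (u * x * y))) ≤ 1 - gd (Q i) * ((1 / 2) * (1 / 2) ^ (k + 1)) := by
        intro x
        simp only [E_two, mul_assoc]
        rw [cubeF_half, cubeF_right, cubeF_right]
        have ha : cubeF (Q i) (g i * (x * 1)) (ind (TA k)) ≤ 1 := by
          have := cubeF_mono (Q i) (g i * (x * 1)) _ _ (ind_le_one (TA k))
          rwa [cubeF_const] at this
        have hb : cubeF (Q i) (g i * (x * ez L)) (ind (TA k)) ≤ 1 := by
          have := cubeF_mono (Q i) (g i * (x * ez L)) _ _ (ind_le_one (TA k))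
          rwa [cubeF_const] at this
        rw [gd]
        split_ifs with hgd
        · have hlen' : (Q i).length = k + 1 := by simpa using hlen i
          rcases lev_alt (g i * x).t L with h3 | h3
          · have h4 := cube_upper (g := g i * (x * 1)) hgd hlen' (by
              intro q hq
              rw [mul_one]
              exact (hL i q hq).trans_lt h3)
            linarith
          · have h4 := cube_upper (g := g i * (x * ez L)) hgd hlen' (by
              intro q hq
              rw [← mul_assoc, mul_t]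
              exact (hL i q hq).trans_lt h3)
            linarith
        · linarith
      refine (E_mono hη h2).trans ?_
      rw [E_const hη]
    calc ∑ i, c i * cubeF (Q i) (g i) (fun u => E η (fun x => E (two (ez L))
          (fun y => ind (TA k) (u * x * y))))
        ≤ ∑ i, c i * (1 - gd (Q i) * ((1 / 2) * (1 / 2) ^ (k + 1))) :=
          Finset.sum_le_sum fun i _ => mul_le_mul_of_nonneg_left (h1 i) (hc i)
      _ = 1 - (∑ i, c i * gd (Q i)) * ((1 / 2) * (1 / 2) ^ (k + 1)) := by
          rw [Finset.sum_mul]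
          simp only [mul_sub, mul_one, Finset.sum_sub_distrib, hs]
          congr 1
          refine Finset.sum_congr rfl fun i _ => ?_
          ring
      _ ≤ 1 - δ * (1 / 2) ^ (0 + 1) * (1 / 2) ^ (k + 1) := by
          have h5 : δ * ((1 / 2) * (1 / 2) ^ (k + 1)) ≤
            (∑ i, c i * gd (Q i)) * ((1 / 2) * (1 / 2) ^ (k + 1)) :=
            mul_le_mul_of_nonneg_right hδ (by positivity)
          rw [zero_add, pow_one, mul_assoc]
          linarith
  | succ r ih =>
    intro Λ δ h
    have hnice := h.nice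
    obtain ⟨ι, _, c, Q, g, hc, hs, hlen, hδ, hΛ⟩ := h
    obtain ⟨L, hL⟩ := exists_bound Q
    show U (TA k) (2 * r + 1 + 1 + 1) Λ ≤ _
    apply U_succ_le hnice (wt_two (ez L))
    intro η hη
    apply U_succ_le (hnice.nxt hη (wt_two _)) (wt_two (tog 0))
    intro η' hη'
    let z : Bool → Lamp := fun b => if b then ez L else 1
    have hfam : CFam k r (δ / 2) (nxt (nxt Λ η (two (ez L))) η' (two (tog 0))) := by
      refine ⟨ι × η.support × Bool × η'.support, inferInstance,
        fun p => c p.1 * (η p.2.1 * (1 / 2 * η' p.2.2.2)),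
        fun p => (g p.1 * p.2.1 * z p.2.2.1 * p.2.2.2).t :: Q p.1,
        fun p => g p.1 * p.2.1 * z p.2.2.1 * p.2.2.2, ?_, ?_, ?_, ?_, ?_⟩
      · intro p
        exact mul_nonneg (hc _) (mul_nonneg (hη.1 _) (mul_nonneg (by norm_num) (hη'.1 _)))
      · show ∑ p : ι × η.support × Bool × η'.support,
          c p.1 * (η p.2.1 * (1 / 2 * η' p.2.2.2)) = 1
        rw [Fintype.sum_prod_type]
        have h1 : ∀ i, ∑ y : η.support × Bool × η'.support,
            c i * (η y.1 * (1 / 2 * η' y.2.2)) = c i := by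
          intro i
          rw [Fintype.sum_prod_type]
          have h2 : ∀ x : η.support, ∑ y : Bool × η'.support,
            c i * (η x * (1 / 2 * η' y.2)) = c i * η x := by
            intro x
            rw [Fintype.sum_prod_type, Fintype.sum_bool]
            simp only [← Finset.mul_sum, wt_sum hη', mul_one]
            ring
          rw [Finset.sum_congr rfl fun x _ => h2 x, ← Finset.mul_sum, wt_sum hη, mul_one]
        rw [Finset.sum_congr rfl fun i _ => h1 i, hs]
      · intro p
        have := hlen p.1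
        simp only [List.length_cons]
        omega
      · have key : ∀ i, gd (Q i) / 2 ≤ ∑ x : η.support, ∑ b : Bool, ∑ x' : η'.support,
            η x * (1 / 2 * η' x') * gd ((g i * x * z b * x').t :: Q i) := by
          intro i
          have h1 : ∀ x x' : Lamp, gd (Q i) ≤ gd ((g i * x * z true * x').t :: Q i) +
              gd ((g i * x * z false * x').t :: Q i) := by
            intro x x'
            have h0 := gd_nonneg ((g i * x * z true * x').t :: Q i)
            have h0' := gd_nonneg ((g i * x * z false * x').t :: Q i)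
            by_cases hgd : ((Q i).map lev).Nodup
            · have hcons : ∀ P : T, L < lev P → gd (P :: Q i) = 1 := by
                intro P hP
                rw [gd, if_pos]
                rw [List.map_cons, List.nodup_cons]
                refine ⟨?_, hgd⟩
                intro hmem
                obtain ⟨q, hq, hqe⟩ := List.mem_map.1 hmem
                have := hL i q hq
                omega
              have hle : gd (Q i) ≤ 1 := gd_le_one _
              rcases lev_alt ((g i).t + x.t + x'.t) L with h3 | h3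
              · have h4 : gd ((g i * x * z false * x').t :: Q i) = 1 := by
                  apply hcons
                  have : (g i * x * z false * x').t = (g i).t + x.t + x'.t := by
                    show (g i * x * 1 * x').t = _
                    rw [mul_one, mul_t, mul_t]
                  rwa [this]
                linarith
              · have h4 : gd ((g i * x * z true * x').t :: Q i) = 1 := by
                  apply hcons
                  have : (g i * x * z true * x').t =
                      (g i).t + x.t + x'.t + Finsupp.single L 1 := by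
                    show (g i * x * ez L * x').t = _
                    rw [mul_t, mul_t, mul_t]
                    show (g i).t + x.t + Finsupp.single L 1 + x'.t = _
                    abel
                  rwa [this]
                linarith
            · have : gd (Q i) = 0 := by rw [gd, if_neg hgd]
              linarith
          calc gd (Q i) / 2 = ∑ x : η.support, ∑ x' : η'.support,
                η x * (1 / 2 * η' x') * gd (Q i) := by
                simp only [← Finset.sum_mul, ← Finset.mul_sum, wt_sum hη', mul_one]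
                rw [wt_sum hη]
                ring
            _ ≤ ∑ x : η.support, ∑ x' : η'.support, η x * (1 / 2 * η' x') *
                (gd ((g i * x * z true * x').t :: Q i) +
                  gd ((g i * x * z false * x').t :: Q i)) :=
                Finset.sum_le_sum fun x _ => Finset.sum_le_sum fun x' _ =>
                  mul_le_mul_of_nonneg_left (h1 x x')
                    (mul_nonneg (hη.1 _) (mul_nonneg (by norm_num) (hη'.1 _)))
            _ = _ := by
                refine Finset.sum_congr rfl fun x _ => ?_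
                rw [Fintype.sum_bool, ← Finset.sum_add_distrib]
                refine Finset.sum_congr rfl fun x' _ => ?_
                ring
        calc δ / 2 ≤ (∑ i, c i * gd (Q i)) / 2 := by linarith
          _ = ∑ i, c i * (gd (Q i) / 2) := by
              rw [Finset.sum_div]
              refine Finset.sum_congr rfl fun i _ => ?_
              ring
          _ ≤ ∑ i, c i * ∑ x : η.support, ∑ b : Bool, ∑ x' : η'.support,
                η x * (1 / 2 * η' x') * gd ((g i * x * z b * x').t :: Q i) :=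
              Finset.sum_le_sum fun i _ => mul_le_mul_of_nonneg_left (key i) (hc i)
          _ = _ := by
              simp only [Fintype.sum_prod_type, Finset.mul_sum, mul_assoc]
      · intro f
        rw [nxt, nxt, hΛ]
        simp only [Fintype.sum_prod_type]
        refine Finset.sum_congr rfl fun i _ => ?_
        rw [cubeF_E, E_eq_sum, Finset.mul_sum]
        refine Finset.sum_congr rfl fun x _ => ?_
        simp only [E_two]
        rw [cubeF_half, cubeF_E, cubeF_E, Fintype.sum_bool, E_eq_sum, E_eq_sum]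
        have h2 : ∀ (b : Bool) (x' : Lamp), cubeF (Q i) (g i)
            (fun u => (f (u * x * z b * x' * 1) + f (u * x * z b * x' * tog 0)) / 2) =
            cubeF ((g i * x * z b * x').t :: Q i) (g i * x * z b * x') f := by
          intro b x'
          rw [← cubeF_two, cubeF_half]
          congr 2
          · simp only [mul_one, mul_assoc]
            exact cubeF_right _ _ _ _
          · simp only [mul_assoc]
            exact cubeF_right _ _ _ _
        have h3 := fun x' => h2 false x'
        have h4 := fun x' => h2 true x'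
        simp only [z, if_true, Bool.false_eq_true, if_false] at h3 h4
        simp only [h3, h4]
        rw [← Finset.sum_add_distrib, ← Finset.sum_add_distrib, Finset.sum_div,
          Finset.mul_sum, Finset.mul_sum]
        refine Finset.sum_congr rfl fun x' _ => ?_
        simp only [z, if_true, Bool.false_eq_true, if_false]
        ring
    have h1 := ih _ _ hfam
    refine h1.trans ?_
    rw [pow_succ _ (r + 1)]
    have : δ / 2 * (1 / 2) ^ (r + 1) * (1 / 2) ^ (k + 1) =
      δ * ((1 / 2) ^ (r + 1) * (1 / 2)) * (1 / 2) ^ (k + 1) := by ring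
    linarith

/-- Families are closed under one round with the trivial `κ`. -/
theorem Fam.step {Λ : (Lamp → ℝ) → ℝ} (h : Fam (fun _ => True) Λ) {η : Lamp →₀ ℝ} (hη : Wt η) :
    Fam (fun _ => True) (nxt Λ η (Finsupp.single 1 1)) := by
  obtain ⟨ι, _, c, g, hc, hs, -, hΛ⟩ := h
  refine ⟨ι × η.support, inferInstance, fun p => c p.1 * η p.2, fun p => g p.1 * p.2,
    fun p => mul_nonneg (hc _) (hη.1 _), ?_, fun _ => trivial, ?_⟩
  · rw [Fintype.sum_prod_type]
    simp only [← Finset.mul_sum, wt_sum hη, mul_one, hs]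
  · intro f
    rw [nxt, hΛ, Fintype.sum_prod_type]
    simp only [E_single, mul_one]
    simp only [E_eq_sum, Finset.mul_sum, mul_assoc]

theorem Fam.cfam {Λ : (Lamp → ℝ) → ℝ} (h : Fam (fun _ => True) Λ) (k : ℕ) :
    CFam k (k + 1) 1 Λ := by
  obtain ⟨ι, _, c, g, hc, hs, -, hΛ⟩ := h
  refine ⟨ι, inferInstance, c, fun _ => [], g, hc, hs, fun _ => by simp, ?_, hΛ⟩
  have h1 : gd [] = 1 := by
    rw [gd, if_pos]
    exact List.nodup_nil
  simp only [h1, mul_one, hs, le_refl]

theorem upper_all (k d : ℕ) : ∀ (Λ : (Lamp → ℝ) → ℝ), Fam (fun _ => True) Λ →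
    U (TA k) (2 * (k + 1) + 1 + d) Λ ≤ 1 - 1 * (1 / 2) ^ (k + 1 + 1) * (1 / 2) ^ (k + 1) := by
  induction d with
  | zero =>
    intro Λ h
    exact upper k (k + 1) Λ 1 (h.cfam k)
  | succ d ih =>
    intro Λ h
    exact U_succ_le h.nice (wt_single 1) fun η hη => ih _ (h.step hη)

/-- Evaluation at `1`. -/
noncomputable def ev (f : Lamp → ℝ) : ℝ := f 1

theorem fam_ev (P : Lamp → Prop) (h : P 1) : Fam P ev := by
  refine ⟨Unit, inferInstance, fun _ => 1, fun _ => 1, fun _ => zero_le_one, by simp,
    fun _ => h, ?_⟩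
  intro f
  simp [ev]

theorem one_mem_TD : (1 : Lamp) ∈ TD 0 := by
  have h : lv (1 : Lamp) = ∅ := by
    ext l
    simp only [Set.mem_empty_iff_false, iff_false]
    rintro ⟨x, -, hx⟩
    exact hx (by rw [one_v]; rfl)
  refine ⟨?_, ?_⟩
  · intro l hl
    rw [h] at hl
    exact hl.elim
  · rw [h, Set.ncard_empty]

theorem U_ne {m n : ℕ} (hm : 1 ≤ m) (hn : 2 * m + 1 ≤ n) :
    (fun A => U A m ev) ≠ (fun A => U A n ev) := by
  obtain ⟨k, rfl⟩ : ∃ k, m = k + 1 := ⟨m - 1, by omega⟩
  obtain ⟨d, rfl⟩ : ∃ d, n = 2 * (k + 1) + 1 + d := ⟨n - (2 * (k + 1) + 1), by omega⟩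
  intro h
  have h1 := lower k 0 ev (fam_ev _ one_mem_TD)
  rw [zero_add] at h1
  have h2 := upper_all k d ev (fam_ev _ trivial)
  have h3 : U (TA k) (k + 1) ev = U (TA k) (2 * (k + 1) + 1 + d) ev := congrFun h (TA k)
  have h4 : (0 : ℝ) < 1 * (1 / 2) ^ (k + 1 + 1) * (1 / 2) ^ (k + 1) := by positivity
  linarith

end lamp

section final

open Pool.Agent.Results.MP_b01501_co
open Pool.Agent.Results.MP_b01501_co.NotPiecewiseSyndetic (Lamp)

variable {G : Type} [Group G]

theorem applyOps_congr (n : ℕ) : ∀ (e : Fin n → Letter) (F F' : (Fin n → Set G → ℝ) → ℝ),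
    (∀ ν, (∀ j, ν j ∈ (e j).dom G) → F ν = F' ν) → applyOps n e F = applyOps n e F' := by
  induction n with
  | zero =>
    intro e F F' h
    exact h _ (fun j => j.elim0)
  | succ n ih =>
    intro e F F' h
    rw [applyOps, applyOps]
    congr 1
    apply Set.image_congr
    intro ν hν
    apply ih
    intro w hw
    apply h
    intro j
    refine Fin.cases ?_ ?_ j
    · exact hν
    · intro j
      rw [Fin.cons_succ]
      exact hw j

theorem alt_dom (n : ℕ) (j : Fin n) : (alt n j).dom G = Pω G := by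
  rw [alt]
  split_ifs <;> rfl

theorem alt_ne (n : ℕ) (j : Fin n) : ¬ (alt n j = .I ∨ alt n j = .S) := by
  rw [alt]
  split_ifs <;> simp

theorem extremal_eq (M : ℕ) (A : Set Lamp) :
    extremal (2 * M + 1) (swapFn_invol (M + 1)).toPerm (alt (2 * (M + 1))) A = U A (M + 1) ev := by
  rw [← applyOps_eq_U, extremal]
  apply applyOps_congr
  intro ν hν
  show prod (2 * M + 1) (fun j => ν (swapFn (M + 1) j)) A =
    prodU (2 * (M + 1)) (fun j => ν (swapFn (M + 1) j)) {x | 1 * x ∈ A}
  rw [prod_eq_prodU]
  · simp only [one_mul]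
    rfl
  · have := hν (swapFn (M + 1) (Fin.last (2 * M + 1)))
    rwa [alt_dom] at this

theorem infinite_lamp : (extremalDensities Lamp).Infinite := by
  have hinj : Function.Injective (fun i : ℕ => fun A : Set Lamp => U A (2 ^ (i + 1) - 1) ev) := by
    have key : ∀ i j : ℕ, i < j → (fun A : Set Lamp => U A (2 ^ (i + 1) - 1) ev) ≠
        fun A => U A (2 ^ (j + 1) - 1) ev := by
      intro i j hij
      have h1 : 2 ^ (i + 1) * 2 ≤ 2 ^ (j + 1) := by
        rw [← pow_succ]
        exact Nat.pow_le_pow_right (by norm_num) (by omega)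
      have h2 : 2 ≤ 2 ^ (i + 1) := by
        rw [pow_succ]
        have : 0 < 2 ^ i := by positivity
        omega
      exact U_ne (by omega) (by omega)
    intro i j hij
    rcases lt_trichotomy i j with h | h | h
    · exact absurd hij (key i j h)
    · exact h
    · exact absurd hij.symm (key j i h)
  apply (Set.infinite_range_of_injective hinj).mono
  rintro f ⟨i, rfl⟩
  have h2 : 1 ≤ 2 ^ (i + 1) - 1 := by
    rw [pow_succ]
    have : 0 < 2 ^ i := by positivity
    omega
  obtain ⟨M, hM⟩ : ∃ M, 2 ^ (i + 1) - 1 = M + 1 := ⟨2 ^ (i + 1) - 1 - 1, by omega⟩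
  refine ⟨2 * M + 1, (swapFn_invol (M + 1)).toPerm, alt (2 * (M + 1)), ?_, ?_⟩
  · intro k hk
    exact absurd hk (alt_ne _ k)
  · funext A
    rw [extremal_eq]
    simp only [hM]

open Pool.Agent.Results.MP_b01501_co.NotPiecewiseSyndetic (exists_n K_inv K_nonempty)

theorem amenable_lamp : Amenable Lamp := by
  classical
  choose n hn using exists_n
  let F : Ultrafilter (Finset Lamp) := Ultrafilter.of Filter.atTop
  have hF : (F : Filter (Finset Lamp)) ≤ Filter.atTop := Ultrafilter.of_le _
  let K : Finset Lamp → Finset Lamp := fun H => NotPiecewiseSyndetic.K (n H) 0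
  have hK : ∀ H, (0 : ℝ) < (K H).card := fun H => by
    exact_mod_cast (K_nonempty (n H) 0).card_pos
  let a : Set Lamp → Finset Lamp → ℝ := fun A H => ((A ∩ (K H : Set Lamp)).ncard : ℝ) / (K H).card
  have ha : ∀ A H, a A H ∈ Set.Icc (0 : ℝ) 1 := by
    intro A H
    refine ⟨by positivity, ?_⟩
    rw [div_le_one (hK H)]
    have := Set.ncard_le_ncard (s := A ∩ (K H : Set Lamp)) (t := (K H : Set Lamp))
      Set.inter_subset_right (Finset.finite_toSet (K H))
    rw [Set.ncard_coe_finset] at this
    exact_mod_cast this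
  have hlim : ∀ A, ∃ x ∈ Set.Icc (0 : ℝ) 1, Filter.Tendsto (a A) F (nhds x) := by
    intro A
    obtain ⟨x, hx, hle⟩ := isCompact_Icc.ultrafilter_le_nhds (F.map (a A)) (by
      rw [Filter.le_principal_iff]
      exact Filter.mem_map.2 (Filter.univ_mem' (ha A)))
    exact ⟨x, hx, hle⟩
  choose ν hν1 hν2 using hlim
  refine ⟨ν, ⟨fun A => (hν1 A).1, ?_, ?_⟩, ?_⟩
  · apply tendsto_nhds_unique (hν2 Set.univ)
    apply tendsto_const_nhds.congr
    intro H
    show 1 = ((Set.univ ∩ (K H : Set Lamp)).ncard : ℝ) / (K H).card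
    rw [Set.univ_inter, Set.ncard_coe_finset, div_self (hK H).ne']
  · intro A B hAB
    apply tendsto_nhds_unique (hν2 (A ∪ B))
    apply ((hν2 A).add (hν2 B)).congr
    intro H
    show ((A ∩ (K H : Set Lamp)).ncard : ℝ) / (K H).card + ((B ∩ (K H : Set Lamp)).ncard : ℝ) /
      (K H).card = (((A ∪ B) ∩ (K H : Set Lamp)).ncard : ℝ) / (K H).card
    rw [Set.union_inter_distrib_right, Set.ncard_union_eq (hAB.mono Set.inter_subset_left
      Set.inter_subset_left) ((Finset.finite_toSet (K H)).inter_of_right _)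
      ((Finset.finite_toSet (K H)).inter_of_right _)]
    push_cast
    ring
  · intro g A
    apply tendsto_nhds_unique (hν2 _)
    apply (hν2 A).congr'
    have h1 : ∀ᶠ H in Filter.atTop, g ∈ (H : Finset Lamp) := by
      filter_upwards [Filter.eventually_ge_atTop {g}] with H hH
      exact hH (Finset.mem_singleton_self g)
    filter_upwards [hF h1] with H hH
    show ((A ∩ (K H : Set Lamp)).ncard : ℝ) / (K H).card =
      ((((fun x => g * x) '' A) ∩ (K H : Set Lamp)).ncard : ℝ) / (K H).card
    have h2 : (fun x => g * x) '' (K H : Set Lamp) = (K H : Set Lamp) := K_inv (hn H g hH)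
    have h3 : ((fun x => g * x) '' A) ∩ (K H : Set Lamp) =
        (fun x => g * x) '' (A ∩ (K H : Set Lamp)) := by
      rw [Set.image_inter (mul_right_injective g), h2]
    rw [h3, Set.ncard_image_of_injective _ (mul_right_injective g)]

end final

/-- The question Q1: the family of extremal densities is finite for every amenable group. -/
def Q1 : Prop := ∀ (G : Type) [Group G], Amenable G → (extremalDensities G).Finite

/-- There is a countable amenable group with infinitely many extremal densities. -/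
theorem result : ¬ Q1 ∧ ∃ (G : Type) (_ : Group G), Countable G ∧ Amenable G ∧
    (extremalDensities G).Infinite := by
  refine ⟨fun h => infinite_lamp (h _ amenable_lamp), _, inferInstance, inferInstance,
    amenable_lamp, infinite_lamp⟩

end Pool.Agent.Results.MP_5c8a88_co.InfinitelyManyDensities
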